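import Mathlib

namespace Pool.Agent.Results.MP_3827cc_co.SumsDiffer

open MvPolynomial Finset

/-- The parts of a partition in weakly decreasing order. -/
def rows {m : ℕ} (μ : Nat.Partition m) : List ℕ := μ.parts.sort (· ≥ ·)

/-- The Vandermonde product `∏_{i<j} (x_i - x_j)` in `k` variables. -/
noncomputable def vand (k : ℕ) : MvPolynomial (Fin k) ℤ :=
  ∏ i : Fin k, ∏ j ∈ Finset.Ioi i, (X i - X j)

/-- The power sum `p_r = ∑ x_i ^ r` in `k` variables. -/
noncomputable def psum (k r : ℕ) : MvPolynomial (Fin k) ℤ := ∑ i : Fin k, X i ^ r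

/-- Frobenius' character formula: for `μ, ν` partitions of `m`, with `k` the number of rows of `μ`,
the value `χ^μ_ν` of the irreducible character of the symmetric group indexed by `μ` on
permutations of cycle type `ν` is the coefficient of `∏ x_i ^ (μ_i + k - i)` in
`∏_{i<j} (x_i - x_j) * ∏_j p_{ν_j}`  (here the variables are numbered from `0`). -/
noncomputable def chi {m : ℕ} (μ ν : Nat.Partition m) : ℤ :=
  MvPolynomial.coeff
    (Finsupp.equivFunOnFinite.symm fun i : Fin (rows μ).length =>
      (rows μ).get i + ((rows μ).length - 1 - (i : ℕ)))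
    (vand (rows μ).length * (ν.parts.map (psum (rows μ).length)).prod)

/-- The doubled partition `λ̃_S`: the part `λ_i` is replaced by the single part `2 λ_i` if `i ∈ S`
and by the two parts `λ_i, λ_i` otherwise. -/
def doubled {n : ℕ} (lam : Nat.Partition n) (S : Finset (Fin (rows lam).length)) :
    Nat.Partition (2 * n) where
  parts := ∑ i, if i ∈ S then {2 * (rows lam).get i} else {(rows lam).get i, (rows lam).get i}
  parts_pos := by
    intro p hp
    rw [Multiset.mem_sum] at hp
    obtain ⟨i, -, hi⟩ := hp
    have hpos : 0 < (rows lam).get i := by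
      apply lam.parts_pos
      have := List.get_mem (rows lam) i
      unfold rows at this
      rwa [Multiset.mem_sort] at this
    split_ifs at hi with h
    · rw [Multiset.mem_singleton] at hi
      omega
    · simp only [Multiset.insert_eq_cons, Multiset.mem_cons, Multiset.mem_singleton] at hi
      omega
  parts_sum := by
    have h1 : (∑ i, if i ∈ S then ({2 * (rows lam).get i} : Multiset ℕ)
        else {(rows lam).get i, (rows lam).get i}).sum = ∑ i, 2 * (rows lam).get i := by
      rw [← Multiset.coe_sumAddMonoidHom, map_sum]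
      refine Finset.sum_congr rfl fun i _ => ?_
      split_ifs <;> simp [two_mul]
    rw [h1, ← Finset.mul_sum]
    congr 1
    have h2 : ∑ i, (rows lam).get i = (rows lam).sum := by
      rw [← List.sum_ofFn, List.ofFn_get]
    rw [h2, ← Multiset.sum_coe]
    unfold rows
    rw [Multiset.sort_eq]
    exact lam.parts_sum

/-- `A_N(λ)`: the alternating sum over all `S` of `(-1)^{ℓ(λ̃_S)}` times the sum of `χ^μ` at `λ̃_S`
over the partitions `μ` of `2n` with at most `2N+1` parts, all even. -/
noncomputable def A {n : ℕ} (lam : Nat.Partition n) (N : ℕ) : ℤ :=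
  ∑ S : Finset (Fin (rows lam).length), (-1) ^ (doubled lam S).parts.card *
    ∑ μ : Nat.Partition (2 * n) with
      μ.parts.card ≤ 2 * N + 1 ∧ ∀ p ∈ μ.parts, Even p, chi μ (doubled lam S)

/-- `B_N(λ)`: the sum over all `S` of the sum of `χ^μ` at `λ̃_S` over the partitions `μ` of `2n`
with at most `2N` parts whose conjugate has only even parts (the `j`-th part of the conjugate is
the number of parts of `μ` that are at least `j`). -/
noncomputable def B {n : ℕ} (lam : Nat.Partition n) (N : ℕ) : ℤ :=
  ∑ S : Finset (Fin (rows lam).length),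
    ∑ μ : Nat.Partition (2 * n) with
      μ.parts.card ≤ 2 * N ∧ ∀ j ∈ Finset.Icc 1 (2 * n), Even (μ.parts.countP (j ≤ ·)), chi μ (doubled lam S)

/-! ### Evaluating Frobenius' formula -/

/-- coefficient of `x^e` in the Vandermonde times power sums indexed by a list -/
noncomputable def C (k : ℕ) (l : List ℕ) (e : Fin k → ℕ) : ℤ :=
  MvPolynomial.coeff (Finsupp.equivFunOnFinite.symm e) (vand k * (l.map (psum k)).prod)

lemma C_cons (k r : ℕ) (l : List ℕ) (e : Fin k → ℕ) :
    C k (r :: l) e = ∑ i, if r ≤ e i then C k l (Function.update e i (e i - r)) else 0 := by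
  unfold C
  rw [List.map_cons, List.prod_cons, mul_comm (psum k r), ← mul_assoc]
  unfold psum
  rw [Finset.mul_sum, MvPolynomial.coeff_sum]
  refine Finset.sum_congr rfl fun i _ => ?_
  rw [X_pow_eq_monomial, coeff_mul_monomial']
  have h1 : (Finsupp.single i r ≤ Finsupp.equivFunOnFinite.symm e) ↔ r ≤ e i := by
    rw [Finsupp.single_le_iff]
    rfl
  simp only [h1, mul_one]
  split_ifs with h
  · congr 1
    ext j
    simp only [Finsupp.coe_tsub, Pi.sub_apply, Finsupp.equivFunOnFinite_symm_apply_apply,
      Function.update_apply, Finsupp.single_apply]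
    split_ifs with h3 h4 h4
    · subst h3; rfl
    · exact absurd h3.symm h4
    · exact absurd h4.symm h3
    · simp
  · rfl

/-- The sign of a vector: product over the pairs `i < j` of `-1` for ascents and `1` otherwise. -/
def sgn (k : ℕ) (e : Fin k → ℕ) : ℤ := ∏ i : Fin k, ∏ j ∈ Finset.Ioi i, if e i < e j then -1 else 1

lemma vand_eq (k : ℕ) : vand k = (∏ i : Fin k, ∏ _j ∈ Finset.Ioi i, (-1 : MvPolynomial (Fin k) ℤ)) *
    ∑ σ : Equiv.Perm (Fin k), MvPolynomial.monomial
      (Finsupp.equivFunOnFinite.symm fun i => (σ i : ℕ)) ((Equiv.Perm.sign σ : ℤˣ) : ℤ) := by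
  have h1 : vand k = (∏ i : Fin k, ∏ _j ∈ Finset.Ioi i, (-1 : MvPolynomial (Fin k) ℤ)) *
      (Matrix.vandermonde (fun i : Fin k => (X i : MvPolynomial (Fin k) ℤ))).det := by
    rw [Matrix.det_vandermonde, ← Finset.prod_mul_distrib]
    unfold vand
    refine Finset.prod_congr rfl fun i _ => ?_
    rw [← Finset.prod_mul_distrib]
    refine Finset.prod_congr rfl fun j _ => ?_
    ring
  rw [h1]
  congr 1
  rw [Matrix.det_apply, ← Equiv.sum_comp (Equiv.inv (Equiv.Perm (Fin k)))]
  refine Finset.sum_congr rfl fun σ _ => ?_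
  simp only [Equiv.inv_apply, Equiv.Perm.sign_inv, Matrix.vandermonde_apply]
  rw [← Equiv.prod_comp σ]
  have h3 : ∀ i, (σ⁻¹) (σ i) = i := fun i => σ.symm_apply_apply i
  simp only [h3]
  have h2 : ∏ i : Fin k, (X i : MvPolynomial (Fin k) ℤ) ^ (σ i : ℕ) = MvPolynomial.monomial
      (Finsupp.equivFunOnFinite.symm fun i => (σ i : ℕ)) 1 := by
    rw [MvPolynomial.monomial_eq, Finsupp.prod_fintype _ _ (fun i => by simp)]
    simp
  rw [h2, Units.smul_def, MvPolynomial.smul_monomial]
  simp

lemma coeff_vand (k : ℕ) (e : Fin k → ℕ) :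
    MvPolynomial.coeff (Finsupp.equivFunOnFinite.symm e) (vand k) =
      if Function.Injective e ∧ ∀ i, e i < k then sgn k e else 0 := by
  rw [vand_eq]
  have h0 : (∏ i : Fin k, ∏ _j ∈ Finset.Ioi i, (-1 : MvPolynomial (Fin k) ℤ)) =
      MvPolynomial.C (∏ i : Fin k, ∏ _j ∈ Finset.Ioi i, (-1 : ℤ)) := by
    simp
  rw [h0, MvPolynomial.coeff_C_mul, MvPolynomial.coeff_sum]
  simp only [MvPolynomial.coeff_monomial, EmbeddingLike.apply_eq_iff_eq]
  split_ifs with h
  · obtain ⟨hinj, hlt⟩ := h
    let f : Fin k → Fin k := fun i => ⟨e i, hlt i⟩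
    have hf : Function.Injective f := fun a b hab => hinj (by simpa [f] using hab)
    let τ : Equiv.Perm (Fin k) := Equiv.ofBijective f (Finite.injective_iff_bijective.1 hf)
    have hτ : ∀ i, (τ i : ℕ) = e i := fun i => rfl
    rw [Finset.sum_eq_single τ]
    · rw [if_pos (funext hτ), Equiv.Perm.sign_eq_prod_prod_Ioi]
      push_cast
      rw [← Finset.prod_mul_distrib]
      unfold sgn
      refine Finset.prod_congr rfl fun i _ => ?_
      rw [← Finset.prod_mul_distrib]
      refine Finset.prod_congr rfl fun j _ => ?_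
      have : (τ i < τ j) ↔ e i < e j := by
        rw [Fin.lt_def, hτ, hτ]
      simp only [this]
      split_ifs <;> simp
    · intro σ _ hσ
      rw [if_neg]
      intro h
      apply hσ
      ext i
      rw [hτ]
      exact congrFun h i
    · simp
  · apply mul_eq_zero_of_right
    apply Finset.sum_eq_zero
    intro σ _
    rw [if_neg]
    intro hσ
    apply h
    subst hσ
    exact ⟨fun a b hab => σ.injective (Fin.ext hab), fun i => (σ i).isLt⟩

/-! ### Computable versions on lists -/

def toF (k : ℕ) (L : List ℕ) : Fin k → ℕ := fun i => L.getD i 0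

/-- leaf value -/
def leaf (k : ℕ) (L : List ℕ) : ℤ :=
  if L.Nodup ∧ ∀ x ∈ L, x < k then
    ((List.finRange k).map fun i : Fin k => ((List.finRange k).map fun j : Fin k =>
      if i < j ∧ L.getD i 0 < L.getD j 0 then (-1 : ℤ) else 1).prod).prod
  else 0

def ev (k : ℕ) : List ℕ → List ℕ → ℤ
  | [], L => leaf k L
  | r :: l, L => ((List.finRange k).map fun i : Fin k =>
      if r ≤ L.getD i 0 then ev k l (L.set i (L.getD i 0 - r)) else 0).sum

lemma C_nil (k : ℕ) (L : List ℕ) (hL : L.length = k) : C k [] (toF k L) = leaf k L := by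
  unfold C leaf
  simp only [List.map_nil, List.prod_nil, mul_one]
  rw [coeff_vand]
  have h1 : Function.Injective (toF k L) ↔ L.Nodup := by
    subst hL
    rw [List.nodup_iff_injective_get]
    have : toF L.length L = L.get := by
      funext i
      simp [toF]
    rw [this]
  have h2 : (∀ i, toF k L i < k) ↔ ∀ x ∈ L, x < k := by
    subst hL
    constructor
    · intro h x hx
      obtain ⟨i, rfl⟩ := List.mem_iff_get.1 hx
      have := h i
      simpa [toF] using this
    · intro h i
      apply h
      simp [toF]
  simp only [h1, h2]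
  split_ifs with h
  · unfold sgn
    rw [Fin.prod_univ_def]
    congr 1
    apply List.map_congr_left
    intro i _
    rw [← Fin.prod_univ_def]
    rw [← Finset.prod_filter_mul_prod_filter_not Finset.univ (fun j => i < j)]
    rw [Finset.prod_eq_one (s := Finset.univ.filter fun j => ¬ i < j), mul_one]
    · have : Finset.univ.filter (fun j => i < j) = Finset.Ioi i := by
        ext j; simp
      rw [this]
      refine Finset.prod_congr rfl fun j hj => ?_
      rw [Finset.mem_Ioi] at hj
      simp [toF, hj]
    · intro j hj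
      rw [Finset.mem_filter] at hj
      simp [hj.2]
  · rfl

lemma C_eq_ev (k : ℕ) (l L : List ℕ) (hL : L.length = k) : C k l (toF k L) = ev k l L := by
  induction l generalizing L with
  | nil => exact C_nil k L hL
  | cons r l ih =>
    rw [C_cons, ev, Fin.sum_univ_def]
    congr 1
    apply List.map_congr_left
    intro i _
    have h1 : toF k L i = L.getD i 0 := rfl
    rw [h1]
    split_ifs with h
    · rw [← ih _ (by rw [List.length_set]; exact hL)]
      congr 1
      funext j
      rw [Function.update_apply]
      unfold toF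
      by_cases hij : j = i
      · subst hij
        rw [if_pos rfl]
        have : (j : ℕ) < L.length := by rw [hL]; exact j.isLt
        simp [List.getD_eq_getElem?_getD, this]
      · rw [if_neg hij]
        have : (i : ℕ) ≠ j := fun h => hij (Fin.ext h.symm)
        simp [List.getD_eq_getElem?_getD, List.getElem?_set_ne this]
    · rfl

/-! ### Enumerating partitions -/

/-- weakly decreasing lists of positive integers at most `b` with sum `m` and length at most `N` -/
def enum : ℕ → ℕ → ℕ → List (List ℕ)
  | 0, _, m => if m = 0 then [[]] else []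
  | N + 1, b, m => if m = 0 then [[]] else
      (List.range (min b m)).flatMap fun p => (enum N (p + 1) (m - (p + 1))).map (List.cons (p + 1))

lemma mem_enum (N : ℕ) : ∀ (b m : ℕ) (L : List ℕ), L ∈ enum N b m ↔
    (L.Pairwise (· ≥ ·) ∧ (∀ x ∈ L, 0 < x ∧ x ≤ b) ∧ L.sum = m ∧ L.length ≤ N) := by
  induction N with
  | zero =>
    intro b m L
    unfold enum
    constructor
    · intro h
      split_ifs at h with hm
      · rw [List.mem_singleton] at h
        subst h
        simp [hm]
      · simp at h
    · rintro ⟨-, -, h3, h4⟩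
      have : L = [] := List.length_eq_zero_iff.1 (by omega)
      subst this
      have : m = 0 := by simpa using h3.symm
      simp [this]
  | succ N ih =>
    intro b m L
    unfold enum
    split_ifs with hm
    · subst hm
      rw [List.mem_singleton]
      constructor
      · rintro rfl
        simp
      · rintro ⟨-, h2, h3, -⟩
        cases L with
        | nil => rfl
        | cons a t =>
          have h0 := (h2 a (by simp)).1
          rw [List.sum_cons] at h3
          omega
    · rw [List.mem_flatMap]
      constructor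
      · rintro ⟨p, hp, hL⟩
        rw [List.mem_map] at hL
        obtain ⟨t, ht, rfl⟩ := hL
        rw [List.mem_range] at hp
        obtain ⟨h1, h2, h3, h4⟩ := (ih _ _ _).1 ht
        refine ⟨?_, ?_, ?_, ?_⟩
        · rw [List.pairwise_cons]
          exact ⟨fun x hx => (h2 x hx).2, h1⟩
        · intro x hx
          rw [List.mem_cons] at hx
          rcases hx with rfl | hx
          · omega
          · have := h2 x hx
            omega
        · rw [List.sum_cons, h3]
          omega
        · simp only [List.length_cons]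
          omega
      · rintro ⟨h1, h2, h3, h4⟩
        cases L with
        | nil => exact absurd (by simpa using h3.symm) hm
        | cons a t =>
          rw [List.pairwise_cons] at h1
          rw [List.sum_cons] at h3
          have ha := h2 a (by simp)
          refine ⟨a - 1, ?_, ?_⟩
          · rw [List.mem_range]
            omega
          · have ha' : a - 1 + 1 = a := by omega
            rw [ha', List.mem_map]
            refine ⟨t, ?_, rfl⟩
            rw [ih]
            refine ⟨h1.2, fun x hx => ⟨(h2 x (by simp [hx])).1, h1.1 x hx⟩, by omega, ?_⟩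
            simp only [List.length_cons] at h4
            omega

lemma rows_coe {m : ℕ} (μ : Nat.Partition m) : (rows μ : Multiset ℕ) = μ.parts :=
  Multiset.sort_eq _ _

lemma rows_pairwise {m : ℕ} (μ : Nat.Partition m) : (rows μ).Pairwise (· ≥ ·) :=
  Multiset.pairwise_sort _ _

lemma rows_eq {m : ℕ} (μ : Nat.Partition m) (L : List ℕ) (hL : L.Pairwise (· ≥ ·))
    (h : (L : Multiset ℕ) = μ.parts) : rows μ = L := by
  apply List.Perm.eq_of_pairwise' (rows_pairwise μ) hL
  rw [← Multiset.coe_eq_coe, rows_coe, h]

lemma sum_partitions (m N : ℕ) (P : List ℕ → Prop) [DecidablePred P] (f : List ℕ → ℤ)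
    (hnd : ((enum N m m).filter P).Nodup) :
    ∑ μ : Nat.Partition m with (rows μ).length ≤ N ∧ P (rows μ), f (rows μ) =
      (((enum N m m).filter P).map f).sum := by
  rw [← List.sum_toFinset f hnd]
  refine Finset.sum_bij (fun μ _ => rows μ) ?_ ?_ ?_ ?_
  · intro μ hμ
    rw [Finset.mem_filter] at hμ
    rw [List.mem_toFinset, List.mem_filter]
    refine ⟨?_, by simpa using hμ.2.2⟩
    rw [mem_enum]
    have hsum : (rows μ).sum = m := by
      rw [← Multiset.sum_coe, rows_coe]
      exact μ.parts_sum
    refine ⟨rows_pairwise μ, ?_, hsum, hμ.2.1⟩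
    intro x hx
    refine ⟨?_, ?_⟩
    · apply μ.parts_pos
      rw [← rows_coe]
      exact hx
    · rw [← hsum]
      exact List.le_sum_of_mem hx
  · intro μ _ μ' _ h
    apply Nat.Partition.ext
    rw [← rows_coe, ← rows_coe, h]
  · intro L hL
    rw [List.mem_toFinset, List.mem_filter, mem_enum] at hL
    obtain ⟨⟨h1, h2, h3, h4⟩, h5⟩ := hL
    let μ : Nat.Partition m := ⟨(L : Multiset ℕ), fun {i} hi => (h2 i hi).1, by
      rw [Multiset.sum_coe]; exact h3⟩
    have hμ : rows μ = L := rows_eq μ L h1 rfl
    refine ⟨μ, ?_, hμ⟩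
    rw [Finset.mem_filter, hμ]
    exact ⟨Finset.mem_univ _, h4, by simpa using h5⟩
  · intro μ _
    rfl

/-- adding the staircase -/
def shift : List ℕ → List ℕ
  | [] => []
  | a :: t => (a + t.length) :: shift t

lemma shift_length (L : List ℕ) : (shift L).length = L.length := by
  induction L with
  | nil => rfl
  | cons a t ih => simp [shift, ih]

lemma shift_get (L : List ℕ) (i : Fin L.length) :
    (shift L).getD i 0 = L.get i + (L.length - 1 - (i : ℕ)) := by
  induction L with
  | nil => exact i.elim0
  | cons a t ih =>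
    refine Fin.cases ?_ (fun j => ?_) i
    · simp [shift]
    · have := ih j
      simp only [shift, List.length_cons, Fin.val_succ, List.getD_cons_succ]
      rw [this]
      congr 1
      omega

/-- the character value in terms of the list of rows and a multiset -/
noncomputable def chi' (L : List ℕ) (M : Multiset ℕ) : ℤ :=
  MvPolynomial.coeff
    (Finsupp.equivFunOnFinite.symm fun i : Fin L.length =>
      L.get i + (L.length - 1 - (i : ℕ)))
    (vand L.length * (M.map (psum L.length)).prod)

lemma chi'_eq (L l : List ℕ) : chi' L (l : Multiset ℕ) = ev L.length l (shift L) := by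
  rw [← C_eq_ev _ _ _ (shift_length L)]
  unfold chi' C
  rw [Multiset.map_coe, Multiset.prod_coe]
  congr 2
  funext i
  exact (shift_get L i).symm

/-- the doubled multiset -/
def dbl (L : List ℕ) (S : Finset (Fin L.length)) : Multiset ℕ :=
  ∑ i, if i ∈ S then {2 * L.get i} else {L.get i, L.get i}

def lam0 : Nat.Partition 8 where
  parts := {5, 3}
  parts_pos := by
    intro i hi
    simp only [Multiset.insert_eq_cons, Multiset.mem_cons, Multiset.mem_singleton] at hi
    omega
  parts_sum := by simp

lemma rows_lam0 : rows lam0 = [5, 3] := rows_eq lam0 _ (by simp) rfl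

noncomputable def gA (L : List ℕ) (N n : ℕ) : ℤ :=
  ∑ S : Finset (Fin L.length), (-1) ^ (dbl L S).card *
    ∑ μ : Nat.Partition (2 * n) with
      μ.parts.card ≤ 2 * N + 1 ∧ ∀ p ∈ μ.parts, Even p, chi' (rows μ) (dbl L S)

noncomputable def gB (L : List ℕ) (N n : ℕ) : ℤ :=
  ∑ S : Finset (Fin L.length),
    ∑ μ : Nat.Partition (2 * n) with
      μ.parts.card ≤ 2 * N ∧ ∀ j ∈ Finset.Icc 1 (2 * n), Even (μ.parts.countP (j ≤ ·)),
        chi' (rows μ) (dbl L S)

lemma A_eq {n : ℕ} (lam : Nat.Partition n) (N : ℕ) : A lam N = gA (rows lam) N n := rfl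
lemma B_eq {n : ℕ} (lam : Nat.Partition n) (N : ℕ) : B lam N = gB (rows lam) N n := rfl

lemma subsets : (Finset.univ : Finset (Finset (Fin 2))) = {∅, {0}, {1}, {0, 1}} := by decide

lemma dbl0 : dbl [5, 3] ∅ = ([5, 5, 3, 3] : List ℕ) := by decide
lemma dbl1 : dbl [5, 3] {0} = ([10, 3, 3] : List ℕ) := by decide
lemma dbl2 : dbl [5, 3] {1} = ([6, 5, 5] : List ℕ) := by decide
lemma dbl3 : dbl [5, 3] {0, 1} = ([10, 6] : List ℕ) := by decide

def PA (L : List ℕ) : Prop := ∀ p ∈ L, Even p
instance : DecidablePred PA := fun L => by unfold PA; infer_instance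

def PB (L : List ℕ) : Prop := ∀ j ∈ Finset.Icc 1 16, Even (L.countP (j ≤ ·))
instance : DecidablePred PB := fun L => by unfold PB; infer_instance

def listA : List (List ℕ) := (enum 7 16 16).filter PA
def listB : List (List ℕ) := (enum 6 16 16).filter PB

lemma listA_nodup : listA.Nodup := by decide +kernel
lemma listB_nodup : listB.Nodup := by decide +kernel

lemma sumA (l : List ℕ) : (∑ μ : Nat.Partition (2 * 8) with
      μ.parts.card ≤ 2 * 3 + 1 ∧ ∀ p ∈ μ.parts, Even p, chi' (rows μ) (l : Multiset ℕ)) =
    (listA.map fun L => ev L.length l (shift L)).sum := by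
  have h := sum_partitions 16 7 PA (fun L => ev L.length l (shift L)) listA_nodup
  unfold listA
  rw [← h]
  refine Finset.sum_congr ?_ fun μ _ => chi'_eq _ _
  ext μ
  simp only [Finset.mem_filter, Finset.mem_univ, true_and]
  rw [← rows_coe μ]
  rfl

lemma sumB (l : List ℕ) : (∑ μ : Nat.Partition (2 * 8) with
      μ.parts.card ≤ 2 * 3 ∧ ∀ j ∈ Finset.Icc 1 (2 * 8), Even (μ.parts.countP (j ≤ ·)),
        chi' (rows μ) (l : Multiset ℕ)) =
    (listB.map fun L => ev L.length l (shift L)).sum := by
  have h := sum_partitions 16 6 PB (fun L => ev L.length l (shift L)) listB_nodup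
  unfold listB
  rw [← h]
  refine Finset.sum_congr ?_ fun μ _ => chi'_eq _ _
  ext μ
  simp only [Finset.mem_filter, Finset.mem_univ, true_and]
  rw [← rows_coe μ]
  rfl

lemma valA : A lam0 3 = 4 := by
  rw [A_eq, rows_lam0]
  unfold gA
  have hu : (Finset.univ : Finset (Finset (Fin [5, 3].length))) = {∅, {0}, {1}, {0, 1}} := subsets
  rw [hu, Finset.sum_insert (by decide), Finset.sum_insert (by decide),
    Finset.sum_insert (by decide), Finset.sum_singleton, dbl0, dbl1, dbl2, dbl3,
    sumA, sumA, sumA, sumA]
  decide +kernel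

lemma valB : B lam0 3 = 8 := by
  rw [B_eq, rows_lam0]
  unfold gB
  have hu : (Finset.univ : Finset (Finset (Fin [5, 3].length))) = {∅, {0}, {1}, {0, 1}} := subsets
  rw [hu, Finset.sum_insert (by decide), Finset.sum_insert (by decide),
    Finset.sum_insert (by decide), Finset.sum_singleton, dbl0, dbl1, dbl2, dbl3,
    sumB, sumB, sumB, sumB]
  decide +kernel

/-- **The identity fails.** For `n = 8`, `λ = (5,3)` and `N = 3` one has `A_3(λ) = 4` and
`B_3(λ) = 8`; so it is not true that `A_N(λ) = B_N(λ)` for all `n ≥ 1`, all partitions `λ` of `n`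
and all `N ≥ 1`. -/
theorem result :
    (∃ lam : Nat.Partition 8, lam.parts = {5, 3} ∧ A lam 3 = 4 ∧ B lam 3 = 8) ∧
    ¬ ∀ n : ℕ, 1 ≤ n → ∀ lam : Nat.Partition n, ∀ N : ℕ, 1 ≤ N → A lam N = B lam N := by
  refine ⟨⟨lam0, rfl, valA, valB⟩, fun h => ?_⟩
  have := h 8 (by norm_num) lam0 3 (by norm_num)
  rw [valA, valB] at this
  norm_num at this

end Pool.Agent.Results.MP_3827cc_co.SumsDiffer
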